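import Pool.Agent.V11109.Kothe.Defs

/-!
# A criterion for approximate contractibility
-/

set_option autoImplicit false

open Filter Topology

namespace Pool.Agent.V11109.Kothe

universe u v w

section Algebraic

variable {A : Type u} {X : Type v} {I : Type w} [NonUnitalCommRing A] [Module ℂ A]
    [TopologicalSpace A] [AddCommGroup X] [Module ℂ X] [TopologicalSpace X]
    {l r : A →ₗ[ℂ] X →ₗ[ℂ] X} (hX : IsTopBimodule l r) {D : A →L[ℂ] X}
    (hD : ∀ a b, D (a * b) = l a (D b) + r b (D a)) {u : I → A} {χ : I → A → ℂ}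
    (hχ : ∀ i a, a * u i = χ i a • u i) (huu : ∀ i, u i * u i = u i)
    (hort : ∀ i j, i ≠ j → u i * u j = 0)

include hX hD hχ huu in
lemma part_one (F : Finset I) (a : A) :
    l a (∑ i ∈ F, l (u i) (D (u i))) - r a (∑ i ∈ F, l (u i) (D (u i)))
      = l (∑ i ∈ F, u i) (D a) := by
  rw [map_sum, map_sum, map_sum, LinearMap.sum_apply, ← Finset.sum_sub_distrib]
  refine Finset.sum_congr rfl fun i _ => ?_
  have h1 : l a (l (u i) (D (u i))) = χ i a • l (u i) (D (u i)) := by
    rw [← hX.l_mul, hχ, map_smul, LinearMap.smul_apply]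
  have h2 : r a (D (u i)) = χ i a • D (u i) - l (u i) (D a) := by
    have h3 := hD (u i) a
    rw [mul_comm, hχ, map_smul] at h3
    rw [h3]
    abel
  have h4 : r a (l (u i) (D (u i))) = χ i a • l (u i) (D (u i)) - l (u i) (D a) := by
    rw [← hX.l_r, h2, map_sub, map_smul, ← hX.l_mul, huu]
  rw [h1, h4]
  abel

include hX hD in
lemma part_two {e : A} (he : e * e = e) (a : A) :
    l a (-(D e - l e (D e))) - r a (-(D e - l e (D e)))
      = D (a * e) - l e (D (a * e)) - l (a - a * e) (D e) := by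
  have h1 : r a (D e) = D (a * e) - l e (D a) := by
    have h3 := hD e a
    rw [mul_comm] at h3
    rw [h3]
    abel
  have h2 : l e (l e (D a)) = l e (D a) := by rw [← hX.l_mul, he]
  have h4 : r a (l e (D e)) = l e (D (a * e)) - l e (D a) := by
    rw [← hX.l_r, h1, map_sub, h2]
  have h5 : l a (l e (D e)) = l (a * e) (D e) := (hX.l_mul _ _ _).symm
  simp only [map_neg, map_sub, LinearMap.sub_apply, h1, h4, h5]
  abel

include hX hD hχ huu hort in
lemma inner_formula (F : Finset I) (a : A) :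
    let e := ∑ i ∈ F, u i
    let x := ∑ i ∈ F, l (u i) (D (u i)) + -(D e - l e (D e))
    l a x - r a x = D a - D (a - a * e) + l e (D (a - a * e)) - l (a - a * e) (D e) := by
  intro e x
  have he : e * e = e := by
    classical
    show (∑ i ∈ F, u i) * (∑ j ∈ F, u j) = ∑ i ∈ F, u i
    rw [Finset.sum_mul]
    refine Finset.sum_congr rfl fun i hi => ?_
    rw [Finset.mul_sum, Finset.sum_eq_single i (fun j _ hj => hort i j hj.symm)
      (fun h => absurd hi h), huu]
  have h1 := part_one hX hD hχ huu F a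
  have h2 := part_two hX hD he a
  have h3 : l a x - r a x = (l a (∑ i ∈ F, l (u i) (D (u i)))
      - r a (∑ i ∈ F, l (u i) (D (u i)))) + (l a (-(D e - l e (D e)))
      - r a (-(D e - l e (D e)))) := by
    simp only [x, map_add]
    abel
  rw [h3, h1, h2]
  simp only [map_sub]
  abel

end Algebraic

/-- A commutative topological algebra with orthogonal idempotents `u i` such that `A u i = ℂ u i`,
finite sums `e n` of these and scalars `z n → ∞` such that `(z n)⁻¹ e n → 0` and
`z n (a - a (e n)) → 0` for all `a` is approximately contractible. -/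
theorem approx_of_data {A : Type u} {I : Type w} [NonUnitalCommRing A] [Module ℂ A]
    [TopologicalSpace A] [ContinuousSMul ℂ A] {u : I → A} {χ : I → A → ℂ}
    (hχ : ∀ i a, a * u i = χ i a • u i) (huu : ∀ i, u i * u i = u i)
    (hort : ∀ i j, i ≠ j → u i * u j = 0) (F : ℕ → Finset I) (z : ℕ → ℂ) (hz : ∀ n, z n ≠ 0)
    (hz0 : Tendsto (fun n => (z n)⁻¹) atTop (𝓝 0))
    (h1 : Tendsto (fun n => (z n)⁻¹ • ∑ i ∈ F n, u i) atTop (𝓝 0))
    (h2 : ∀ a, Tendsto (fun n => z n • (a - a * ∑ i ∈ F n, u i)) atTop (𝓝 0)) :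
    ApproximatelyContractible.{u, v} A := by
  intro X _ _ _ _ hX l r hlr D hD
  refine ⟨ℕ, inferInstance, inferInstance, inferInstance, fun n =>
    ∑ i ∈ F n, l (u i) (D (u i)) +
      -(D (∑ i ∈ F n, u i) - l (∑ i ∈ F n, u i) (D (∑ i ∈ F n, u i))), fun a => ?_⟩
  have h3 : Tendsto (fun n => a - a * ∑ i ∈ F n, u i) atTop (𝓝 0) := by
    have := hz0.smul (h2 a)
    rw [smul_zero] at this
    refine this.congr fun n => ?_
    rw [smul_smul, inv_mul_cancel₀ (hz n), one_smul]
  have h4 : Tendsto (fun n => D (a - a * ∑ i ∈ F n, u i)) atTop (𝓝 0) := by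
    have := (D.continuous.tendsto 0).comp h3
    rwa [map_zero] at this
  have h5 : Tendsto (fun n => l (∑ i ∈ F n, u i) (D (a - a * ∑ i ∈ F n, u i))) atTop (𝓝 0) := by
    have h6 := (D.continuous.tendsto 0).comp (h2 a)
    have h7 := (hlr.l_cont.tendsto (0, D 0)).comp (h1.prodMk_nhds h6)
    simp only [map_zero] at h7
    refine h7.congr fun n => ?_
    show l ((z n)⁻¹ • ∑ i ∈ F n, u i) (D (z n • (a - a * ∑ i ∈ F n, u i))) = _
    rw [map_smul, map_smul, LinearMap.smul_apply, map_smul, smul_smul, inv_mul_cancel₀ (hz n),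
      one_smul]
  have h8 : Tendsto (fun n => l (a - a * ∑ i ∈ F n, u i) (D (∑ i ∈ F n, u i))) atTop (𝓝 0) := by
    have h6 := (D.continuous.tendsto 0).comp h1
    have h7 := (hlr.l_cont.tendsto (0, D 0)).comp ((h2 a).prodMk_nhds h6)
    simp only [map_zero] at h7
    refine h7.congr fun n => ?_
    show l (z n • (a - a * ∑ i ∈ F n, u i)) (D ((z n)⁻¹ • ∑ i ∈ F n, u i)) = _
    rw [map_smul, map_smul, LinearMap.smul_apply, map_smul, smul_smul, mul_inv_cancel₀ (hz n),
      one_smul]
  have h9 := (((tendsto_const_nhds (x := D a)).sub h4).add h5).sub h8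
  rw [sub_zero, add_zero, sub_zero] at h9
  refine h9.congr fun n => ?_
  exact (inner_formula hlr hD hχ huu hort (F n) a).symm

end Pool.Agent.V11109.Kothe
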