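import Mathlib

/-!
# Köthe algebras, approximately contractible topological algebras, nuclear spaces
-/

set_option autoImplicit false

open Filter Topology

namespace Pool.Agent.V11109.Kothe

universe u v

/-- A Köthe set on `I`: a countable directed set of nonnegative functions without common zeros. -/
structure KotheSet (I : Type u) where
  /-- the weight functions -/
  weights : Set (I → ℝ)
  countable : weights.Countable
  nonneg : ∀ p ∈ weights, ∀ i, 0 ≤ p i
  exists_pos : ∀ i, ∃ p ∈ weights, 0 < p i
  directed : ∀ p ∈ weights, ∀ q ∈ weights, ∃ r ∈ weights, ∀ i, max (p i) (q i) ≤ r i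

variable {I : Type u}

/-- The Köthe space `λ(P)`: all `x` with `∑ |x i| p i < ∞` for all `p ∈ P`. -/
def lam (P : KotheSet I) : Submodule ℂ (I → ℂ) where
  carrier := {x | ∀ p ∈ P.weights, Summable fun i => ‖x i‖ * p i}
  zero_mem' := fun p _ => by simp
  add_mem' := fun {x y} hx hy p hp => by
    refine Summable.of_nonneg_of_le (fun i => mul_nonneg (norm_nonneg _) (P.nonneg p hp i))
      (fun i => ?_) ((hx p hp).add (hy p hp))
    rw [← add_mul]
    exact mul_le_mul_of_nonneg_right (norm_add_le _ _) (P.nonneg p hp i)
  smul_mem' := fun c x hx p hp => by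
    have := (hx p hp).mul_left ‖c‖
    refine this.congr (fun i => ?_)
    rw [Pi.smul_apply, norm_smul, mul_assoc]

/-- `λ(P)` is a Köthe algebra if it is closed under pointwise multiplication. -/
def IsKotheAlgebra (P : KotheSet I) : Prop := ∀ x ∈ lam P, ∀ y ∈ lam P, x * y ∈ lam P

/-- The Köthe algebra as an algebra of functions on `I` with the pointwise operations. -/
def kotheSubalgebra (P : KotheSet I) (h : IsKotheAlgebra P) : NonUnitalSubalgebra ℂ (I → ℂ) where
  carrier := lam P
  zero_mem' := (lam P).zero_mem
  add_mem' := (lam P).add_mem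
  mul_mem' := fun {x y} hx hy => h x hx y hy
  smul_mem' := fun c {_} hx => (lam P).smul_mem c hx

/-- The Köthe algebra as a type; it carries the topology of the seminorms given by `P`. -/
def KotheAlg (P : KotheSet I) (h : IsKotheAlgebra P) : Type u := kotheSubalgebra P h

variable (P : KotheSet I) (h : IsKotheAlgebra P)

noncomputable instance : NonUnitalCommRing (KotheAlg P h) :=
  inferInstanceAs (NonUnitalCommRing (kotheSubalgebra P h))

noncomputable instance : Module ℂ (KotheAlg P h) :=
  inferInstanceAs (Module ℂ (kotheSubalgebra P h))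

/-- the values of an element -/
def KotheAlg.val {P : KotheSet I} {h : IsKotheAlgebra P} (x : KotheAlg P h) : I → ℂ := x.1

/-- The seminorms `‖x‖_p = ∑ |x i| p i`. -/
noncomputable def seminormFamily : SeminormFamily ℂ (KotheAlg P h) P.weights := fun p =>
  Seminorm.ofSMulLE (fun x => ∑' i, ‖x.val i‖ * (p : I → ℝ) i)
    (by
      have : ∀ i, ‖(0 : KotheAlg P h).val i‖ * (p : I → ℝ) i = 0 := fun i => by
        show ‖(0 : ℂ)‖ * _ = 0
        simp
      simp [this])
    (fun x y => by
      have hx : Summable fun i => ‖x.val i‖ * (p : I → ℝ) i := x.2 p p.2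
      have hy : Summable fun i => ‖y.val i‖ * (p : I → ℝ) i := y.2 p p.2
      have hxy : Summable fun i => ‖(x + y).val i‖ * (p : I → ℝ) i := (x + y).2 p p.2
      rw [← hx.tsum_add hy]
      refine hxy.tsum_le_tsum (fun i => ?_) (hx.add hy)
      rw [← add_mul]
      exact mul_le_mul_of_nonneg_right (norm_add_le (x.val i) (y.val i)) (P.nonneg p p.2 i))
    (fun c x => by
      rw [← tsum_mul_left]
      refine le_of_eq (tsum_congr fun i => ?_)
      show ‖c • x.val i‖ * _ = _
      rw [norm_smul, mul_assoc])

lemma seminormFamily_apply (p : P.weights) (x : KotheAlg P h) :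
    seminormFamily P h p x = ∑' i, ‖x.val i‖ * (p : I → ℝ) i := rfl

/-- the topology of the seminorms `‖·‖_p` -/
noncomputable instance : TopologicalSpace (KotheAlg P h) :=
  (seminormFamily P h).moduleFilterBasis.topology

lemma withSeminorms : WithSeminorms (seminormFamily P h) := ⟨rfl⟩

/-- A Fréchet space: complete, Hausdorff, with its topology given by a sequence of seminorms. -/
structure IsFrechetSpace (X : Type v) [AddCommGroup X] [Module ℂ X] [UniformSpace X]
    [IsUniformAddGroup X] : Prop where
  complete : CompleteSpace X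
  t2 : T2Space X
  seminorms : ∃ p : SeminormFamily ℂ X ℕ, WithSeminorms p

/-- Left and right actions of `A` on `X` which make `X` a bimodule with jointly continuous
actions. -/
structure IsTopBimodule {A : Type u} {X : Type v} [NonUnitalRing A] [Module ℂ A]
    [TopologicalSpace A] [AddCommGroup X] [Module ℂ X] [TopologicalSpace X]
    (l r : A →ₗ[ℂ] X →ₗ[ℂ] X) : Prop where
  l_mul : ∀ a b x, l (a * b) x = l a (l b x)
  r_mul : ∀ a b x, r (a * b) x = r b (r a x)
  l_r : ∀ a b x, l a (r b x) = r b (l a x)
  l_cont : Continuous fun z : A × X => l z.1 z.2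
  r_cont : Continuous fun z : A × X => r z.1 z.2

/-- `A` is approximately contractible if, for every Fréchet `A`-bimodule `X`, every continuous
derivation `D : A → X` is the pointwise limit of a net of inner derivations. -/
def ApproximatelyContractible (A : Type u) [NonUnitalRing A] [Module ℂ A]
    [TopologicalSpace A] : Prop :=
  ∀ (X : Type v) [AddCommGroup X] [Module ℂ X] [UniformSpace X] [IsUniformAddGroup X],
    IsFrechetSpace X → ∀ l r : A →ₗ[ℂ] X →ₗ[ℂ] X, IsTopBimodule l r →
    ∀ D : A →L[ℂ] X, (∀ a b, D (a * b) = l a (D b) + r b (D a)) →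
    ∃ (ι : Type) (_ : Preorder ι) (_ : IsDirectedOrder ι) (_ : Nonempty ι) (x : ι → X),
      ∀ a, Tendsto (fun i => l a (x i) - r a (x i)) atTop (𝓝 (D a))

/-- A continuous linear map `T` from a topological vector space to a Banach space is nuclear if
`T x = ∑ c n • f n x • y n` with `∑ |c n| < ∞`, an equicontinuous sequence `f n` of linear
functionals and a bounded sequence `y n`. -/
def IsNuclearMap {E : Type u} {F : Type v} [AddCommGroup E] [Module ℂ E] [TopologicalSpace E]
    [NormedAddCommGroup F] [NormedSpace ℂ F] (T : E →L[ℂ] F) : Prop :=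
  ∃ (c : ℕ → ℝ) (f : ℕ → E →L[ℂ] ℂ) (y : ℕ → F), Summable (fun n => |c n|) ∧
    (∃ q : Seminorm ℂ E, Continuous q ∧ ∀ n x, ‖f n x‖ ≤ q x) ∧ (∃ M, ∀ n, ‖y n‖ ≤ M) ∧
    ∀ x, HasSum (fun n => ((c n : ℂ) * f n x) • y n) (T x)

/-- A locally convex space `E` is nuclear if every continuous linear map from `E` into a Banach
space is nuclear. -/
def IsNuclearSpace (E : Type u) [AddCommGroup E] [Module ℂ E] [TopologicalSpace E] : Prop :=
  ∀ (F : Type u) [NormedAddCommGroup F] [NormedSpace ℂ F] [CompleteSpace F] (T : E →L[ℂ] F),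
    IsNuclearMap T

end Pool.Agent.V11109.Kothe
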