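import Pool.Agent.V11109.Kothe.Approx

/-!
# A non-nuclear approximately contractible Köthe algebra
-/

set_option autoImplicit false

open Filter Topology

namespace Pool.Agent.V11109.Kothe

universe v

/-- the fast growing values of the weight -/
def X : ℕ → ℕ
  | 0 => 2
  | n + 1 => (X n) ^ (6 * n + 6)

/-- the scaling factors -/
def Z (n : ℕ) : ℕ := (X n) ^ (3 * n + 3)

lemma X_succ (n : ℕ) : X (n + 1) = Z n ^ 2 := by
  rw [X, Z, ← pow_mul]
  congr 1
  ring

lemma two_le_X (n : ℕ) : 2 ≤ X n := by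
  induction n with
  | zero => exact le_rfl
  | succ n ih =>
    rw [X]
    exact ih.trans (Nat.le_self_pow (by omega) _)

lemma X_lt_succ (n : ℕ) : X n < X (n + 1) := by
  rw [X]
  exact lt_self_pow₀ (by have := two_le_X n; omega) (by omega)

lemma X_strictMono : StrictMono X := strictMono_nat_of_lt_succ X_lt_succ

lemma le_X (n : ℕ) : n ≤ X n := X_strictMono.id_le n

lemma X_le_Z (n : ℕ) : X n ≤ Z n := Nat.le_self_pow (by omega) _

/-- the index set: the `l`-th block has `(X l) ^ l` elements -/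
abbrev Ix : Type := Σ l : ℕ, Fin (X l ^ l)

/-- the weight -/
def w (i : Ix) : ℝ := X i.1

lemma one_le_w (i : Ix) : 1 ≤ w i := by
  have := two_le_X i.1
  have h : (1 : ℕ) ≤ X i.1 := by omega
  show (1 : ℝ) ≤ (X i.1 : ℝ)
  exact_mod_cast h

lemma w_pos (i : Ix) : 0 < w i := lt_of_lt_of_le one_pos (one_le_w i)

/-- the Köthe set of the powers of the weight -/
def P : KotheSet Ix where
  weights := Set.range fun k : ℕ => fun i => w i ^ k
  countable := Set.countable_range _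
  nonneg := by
    rintro _ ⟨k, rfl⟩ i
    exact pow_nonneg (w_pos i).le k
  exists_pos := fun i => ⟨_, ⟨0, rfl⟩, by simp⟩
  directed := by
    rintro _ ⟨j, rfl⟩ _ ⟨k, rfl⟩
    refine ⟨_, ⟨max j k, rfl⟩, fun i => ?_⟩
    exact max_le (pow_le_pow_right₀ (one_le_w i) (le_max_left _ _))
      (pow_le_pow_right₀ (one_le_w i) (le_max_right _ _))

lemma mem_lam {x : Ix → ℂ} : x ∈ lam P ↔ ∀ k : ℕ, Summable fun i => ‖x i‖ * w i ^ k := by
  constructor
  · intro h k
    exact h _ ⟨k, rfl⟩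
  · rintro h _ ⟨k, rfl⟩
    exact h k

lemma isKothe : IsKotheAlgebra P := by
  intro x hx y hy
  rw [mem_lam] at *
  intro k
  have h1 := hx k
  have h2 : ∀ i, ‖y i‖ ≤ ∑' i, ‖y i‖ := by
    have h3 : Summable fun i => ‖y i‖ := by simpa using hy 0
    intro i
    exact h3.le_tsum i (fun j _ => norm_nonneg _)
  refine Summable.of_nonneg_of_le (fun i => mul_nonneg (norm_nonneg _) (pow_nonneg (w_pos i).le k))
    (fun i => ?_) (h1.mul_left (∑' i, ‖y i‖))
  rw [Pi.mul_apply, norm_mul]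
  have h4 := h2 i
  have h5 : 0 ≤ ‖x i‖ * w i ^ k := mul_nonneg (norm_nonneg _) (pow_nonneg (w_pos i).le k)
  calc ‖x i‖ * ‖y i‖ * w i ^ k = ‖y i‖ * (‖x i‖ * w i ^ k) := by ring
    _ ≤ (∑' i, ‖y i‖) * (‖x i‖ * w i ^ k) := by gcongr

/-- the example -/
abbrev A : Type := KotheAlg P isKothe

/-- the seminorms -/
noncomputable def sn (k : ℕ) : Seminorm ℂ A := seminormFamily P isKothe ⟨_, ⟨k, rfl⟩⟩

lemma sn_apply (k : ℕ) (x : A) : sn k x = ∑' i, ‖x.val i‖ * w i ^ k := rfl

lemma summable_val (k : ℕ) (x : A) : Summable fun i => ‖x.val i‖ * w i ^ k := x.2 _ ⟨k, rfl⟩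

lemma sn_mono {j k : ℕ} (h : j ≤ k) (x : A) : sn j x ≤ sn k x := by
  rw [sn_apply, sn_apply]
  refine (summable_val j x).tsum_le_tsum (fun i => ?_) (summable_val k x)
  exact mul_le_mul_of_nonneg_left (pow_le_pow_right₀ (one_le_w i) h) (norm_nonneg _)

lemma tendsto_zero_iff {f : ℕ → A} :
    Tendsto f atTop (𝓝 0) ↔ ∀ k : ℕ, Tendsto (fun n => sn k (f n)) atTop (𝓝 0) := by
  rw [(withSeminorms P isKothe).tendsto_nhds]
  constructor
  · intro h k
    rw [Metric.tendsto_nhds]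
    intro ε hε
    filter_upwards [h ⟨_, ⟨k, rfl⟩⟩ ε hε] with n hn
    rw [sub_zero] at hn
    rw [Real.dist_eq, sub_zero, abs_of_nonneg (apply_nonneg _ _)]
    exact hn
  · rintro h ⟨_, ⟨k, rfl⟩⟩ ε hε
    filter_upwards [(Metric.tendsto_nhds.mp (h k)) ε hε] with n hn
    rw [Real.dist_eq, sub_zero, abs_of_nonneg (apply_nonneg _ _)] at hn
    rw [sub_zero]
    exact hn

open Classical in
/-- the unit vectors -/
noncomputable def u (i : Ix) : A := ⟨Pi.single i 1, by
  show _ ∈ lam P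
  rw [mem_lam]
  intro k
  refine summable_of_ne_finset_zero (s := {i}) fun j hj => ?_
  have : j ≠ i := by simpa using hj
  simp [this]⟩

open Classical in
lemma u_val (i j : Ix) : (u i).val j = if j = i then 1 else 0 := by
  show (Pi.single i 1 : Ix → ℂ) j = _
  rw [Pi.single_apply]

lemma A_ext {x y : A} (h : ∀ i, x.val i = y.val i) : x = y := Subtype.ext (funext h)

lemma mul_val (x y : A) (i : Ix) : (x * y).val i = x.val i * y.val i := rfl
lemma smul_val (c : ℂ) (x : A) (i : Ix) : (c • x).val i = c * x.val i := rfl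
lemma sub_val (x y : A) (i : Ix) : (x - y).val i = x.val i - y.val i := rfl
lemma add_val (x y : A) (i : Ix) : (x + y).val i = x.val i + y.val i := rfl
lemma zero_val (i : Ix) : (0 : A).val i = 0 := rfl

lemma mul_u (i : Ix) (a : A) : a * u i = a.val i • u i := by
  apply A_ext
  intro j
  rw [mul_val, smul_val, u_val]
  by_cases h : j = i
  · subst h; simp
  · simp [h]

lemma u_u (i : Ix) : u i * u i = u i := by
  rw [mul_u, u_val, if_pos rfl, one_smul]

lemma u_ort (i j : Ix) (h : i ≠ j) : u i * u j = 0 := by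
  rw [mul_u, u_val, if_neg (fun h' => h h'.symm), zero_smul]

/-- the first blocks -/
def F (n : ℕ) : Finset Ix := (Finset.range (n + 1)).sigma fun _ => Finset.univ

lemma mem_F {n : ℕ} {i : Ix} : i ∈ F n ↔ i.1 ≤ n := by
  simp [F]

open Classical in
lemma sum_u_val (s : Finset Ix) (j : Ix) : (∑ i ∈ s, u i).val j = if j ∈ s then 1 else 0 := by
  induction s using Finset.induction_on with
  | empty => simp [zero_val]
  | insert a s ha ih =>
    rw [Finset.sum_insert ha, add_val, ih, u_val]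
    by_cases h : j = a
    · subst h; simp [ha]
    · simp [h]

lemma sn_sum_u (k n : ℕ) : sn k (∑ i ∈ F n, u i) = ∑ l ∈ Finset.range (n + 1), (X l : ℝ) ^ (l + k) := by
  classical
  rw [sn_apply, tsum_eq_sum (s := F n) (fun j hj => by rw [sum_u_val, if_neg hj]; simp)]
  rw [F, Finset.sum_sigma]
  refine Finset.sum_congr rfl fun l hl => ?_
  have h1 : ∀ j ∈ (Finset.univ : Finset (Fin (X l ^ l))),
      ‖(∑ i ∈ F n, u i).val ⟨l, j⟩‖ * w ⟨l, j⟩ ^ k = (X l : ℝ) ^ k := by
    intro j _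
    have h2 : (⟨l, j⟩ : Ix) ∈ F n := by
      rw [mem_F]
      simpa [Nat.lt_succ_iff] using hl
    rw [sum_u_val, if_pos h2, norm_one, one_mul]
    rfl
  have h3 := Finset.sum_congr rfl h1
  rw [F] at h3
  rw [h3, Finset.sum_const, Finset.card_univ, Fintype.card_fin, nsmul_eq_mul]
  push_cast
  rw [pow_add]

lemma sum_bound {k n : ℕ} (hk : k ≤ n) :
    ∑ l ∈ Finset.range (n + 1), (X l : ℝ) ^ (l + k) ≤ (X n : ℝ) ^ (3 * n + 1) := by
  have h1 : ∀ l ∈ Finset.range (n + 1), (X l : ℝ) ^ (l + k) ≤ (X n : ℝ) ^ (2 * n) := by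
    intro l hl
    have hl' : l ≤ n := by simpa [Nat.lt_succ_iff] using hl
    have h2 : (X l : ℝ) ≤ X n := by exact_mod_cast X_strictMono.monotone hl'
    have h3 : (1 : ℝ) ≤ X n := by
      have := two_le_X n
      have h : (1 : ℕ) ≤ X n := by omega
      exact_mod_cast h
    calc (X l : ℝ) ^ (l + k) ≤ (X n : ℝ) ^ (l + k) := by gcongr
      _ ≤ (X n : ℝ) ^ (2 * n) := pow_le_pow_right₀ h3 (by omega)
  have h4 : ((n : ℝ) + 1) ≤ (X n : ℝ) ^ (n + 1) := by
    have h5 : n + 1 ≤ X n ^ (n + 1) := by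
      calc n + 1 ≤ 2 ^ (n + 1) := Nat.lt_two_pow_self.le
        _ ≤ X n ^ (n + 1) := Nat.pow_le_pow_left (two_le_X n) _
    exact_mod_cast h5
  calc ∑ l ∈ Finset.range (n + 1), (X l : ℝ) ^ (l + k)
      ≤ ∑ l ∈ Finset.range (n + 1), (X n : ℝ) ^ (2 * n) := Finset.sum_le_sum h1
    _ = ((n : ℝ) + 1) * (X n : ℝ) ^ (2 * n) := by
      rw [Finset.sum_const, Finset.card_range, nsmul_eq_mul]; push_cast; ring
    _ ≤ (X n : ℝ) ^ (n + 1) * (X n : ℝ) ^ (2 * n) := by gcongr
    _ = (X n : ℝ) ^ (3 * n + 1) := by rw [← pow_add]; congr 1; ring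

lemma X_pos (n : ℕ) : (0 : ℝ) < X n := by
  have := two_le_X n
  have h : (0 : ℕ) < X n := by omega
  exact_mod_cast h

lemma Z_pos (n : ℕ) : (0 : ℝ) < Z n := by
  have h : (0 : ℕ) < Z n := lt_of_lt_of_le (by have := two_le_X n; omega) (X_le_Z n)
  exact_mod_cast h

lemma tendsto_inv_X : Tendsto (fun n => ((X n : ℝ))⁻¹) atTop (𝓝 0) := by
  refine tendsto_inv_atTop_zero.comp ?_
  exact tendsto_natCast_atTop_atTop.comp X_strictMono.tendsto_atTop

lemma tendsto_inv_Z : Tendsto (fun n => ((Z n : ℝ))⁻¹) atTop (𝓝 0) := by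
  refine squeeze_zero (fun n => (inv_pos.mpr (Z_pos n)).le) (fun n => ?_) tendsto_inv_X
  have : (X n : ℝ) ≤ Z n := by exact_mod_cast X_le_Z n
  have h := X_pos n
  gcongr

lemma lim_one : Tendsto (fun n => ((Z n : ℂ))⁻¹ • ∑ i ∈ F n, u i) atTop (𝓝 0) := by
  rw [tendsto_zero_iff]
  intro k
  refine squeeze_zero' (Eventually.of_forall fun n => apply_nonneg _ _) ?_ tendsto_inv_X
  filter_upwards [eventually_ge_atTop k] with n hn
  rw [map_smul_eq_mul, sn_sum_u, norm_inv, Complex.norm_natCast]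
  have h1 := sum_bound hn
  have h2 := Z_pos n
  have h3 := X_pos n
  have h4 : (Z n : ℝ) = (X n : ℝ) ^ (3 * n + 1) * (X n : ℝ) ^ 2 := by
    rw [Z, ← pow_add]; push_cast; rfl
  have h5 : (1 : ℝ) ≤ X n := by
    have := two_le_X n
    have h : (1 : ℕ) ≤ X n := by omega
    exact_mod_cast h
  calc (Z n : ℝ)⁻¹ * ∑ l ∈ Finset.range (n + 1), (X l : ℝ) ^ (l + k)
      ≤ (Z n : ℝ)⁻¹ * (X n : ℝ) ^ (3 * n + 1) := by gcongr
    _ = ((X n : ℝ) ^ 2)⁻¹ := by
      rw [h4, mul_inv]
      field_simp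
    _ ≤ (X n : ℝ)⁻¹ := by
      gcongr
      nlinarith

lemma sn_tail (k n : ℕ) (a : A) :
    sn k (a - a * ∑ i ∈ F n, u i) ≤ (X (n + 1) : ℝ)⁻¹ * sn (k + 1) a := by
  rw [sn_apply, sn_apply, ← tsum_mul_left]
  refine (summable_val k _).tsum_le_tsum (fun i => ?_) ((summable_val (k + 1) a).mul_left _)
  rw [sub_val, mul_val, sum_u_val]
  by_cases h : i ∈ F n
  · rw [if_pos h, mul_one, sub_self, norm_zero, zero_mul]
    have := w_pos i
    have := X_pos (n + 1)
    positivity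
  · rw [if_neg h, mul_zero, sub_zero]
    have h1 : n + 1 ≤ i.1 := by
      rw [mem_F] at h
      omega
    have h2 : (X (n + 1) : ℝ) ≤ w i := by
      show (X (n + 1) : ℝ) ≤ (X i.1 : ℝ)
      exact_mod_cast X_strictMono.monotone h1
    have h3 := X_pos (n + 1)
    have h4 := w_pos i
    calc ‖a.val i‖ * w i ^ k = (X (n + 1) : ℝ)⁻¹ * (‖a.val i‖ * w i ^ k * X (n + 1)) := by
          field_simp
      _ ≤ (X (n + 1) : ℝ)⁻¹ * (‖a.val i‖ * w i ^ k * w i) := by gcongr
      _ = _ := by rw [pow_succ, mul_assoc]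

lemma lim_two (a : A) :
    Tendsto (fun n => (Z n : ℂ) • (a - a * ∑ i ∈ F n, u i)) atTop (𝓝 0) := by
  rw [tendsto_zero_iff]
  intro k
  have h0 : Tendsto (fun n => (Z n : ℝ)⁻¹ * sn (k + 1) a) atTop (𝓝 0) := by
    have := tendsto_inv_Z.mul_const (sn (k + 1) a)
    rwa [zero_mul] at this
  refine squeeze_zero (fun n => apply_nonneg _ _) (fun n => ?_) h0
  rw [map_smul_eq_mul, Complex.norm_natCast]
  have h1 := sn_tail k n a
  have h2 := Z_pos n
  calc (Z n : ℝ) * sn k (a - a * ∑ i ∈ F n, u i)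
      ≤ Z n * ((X (n + 1) : ℝ)⁻¹ * sn (k + 1) a) := by gcongr
    _ = (Z n : ℝ)⁻¹ * sn (k + 1) a := by
      rw [X_succ]
      push_cast
      field_simp

theorem approx_A : ApproximatelyContractible.{0, v} A := by
  have : ContinuousSMul ℂ A := (withSeminorms P isKothe).continuousSMul
  refine approx_of_data (u := u) (χ := fun i a => a.val i) mul_u u_u u_ort F (fun n => (Z n : ℂ))
    (fun n => ?_) ?_ lim_one lim_two
  · exact_mod_cast (Z_pos n).ne'
  · rw [tendsto_zero_iff_norm_tendsto_zero]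
    refine tendsto_inv_Z.congr fun n => ?_
    rw [norm_inv, Complex.norm_natCast]

/-- the inclusion in `ℓ¹`, as a linear map -/
noncomputable def inclₗ : A →ₗ[ℂ] lp (fun _ : Ix => ℂ) 1 where
  toFun x := ⟨x.val, by
    refine memℓp_gen ?_
    have := summable_val 0 x
    simpa using this⟩
  map_add' x y := rfl
  map_smul' c x := rfl

/-- the inclusion in `ℓ¹` -/
noncomputable def incl : A →L[ℂ] lp (fun _ : Ix => ℂ) 1 where
  toLinearMap := inclₗ
  cont := by
    refine (withSeminorms P isKothe).continuous_normedSpace_rng (lp (fun _ : Ix => ℂ) 1)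
      inclₗ ⟨{⟨_, ⟨0, rfl⟩⟩}, 1, fun x => ?_⟩
    rw [Finset.sup_singleton, one_smul]
    show ‖inclₗ x‖ ≤ sn 0 x
    rw [sn_apply, lp.norm_eq_tsum_rpow (by norm_num)]
    simp [inclₗ]

lemma incl_apply (x : A) (i : Ix) : (incl x : Ix → ℂ) i = x.val i := rfl

lemma sn_u (k : ℕ) (i : Ix) : sn k (u i) = w i ^ k := by
  classical
  rw [sn_apply, tsum_eq_single i (fun j hj => by rw [u_val, if_neg hj]; simp), u_val, if_pos rfl]
  simp

lemma exists_sn (s : Finset P.weights) :
    ∃ k : ℕ, ∀ x, s.sup (seminormFamily P isKothe) x ≤ sn k x := by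
  classical
  induction s using Finset.induction_on with
  | empty => exact ⟨0, fun x => by simp⟩
  | insert p s hp ih =>
    obtain ⟨k, hk⟩ := ih
    obtain ⟨_, ⟨j, rfl⟩⟩ := p
    refine ⟨max j k, fun x => ?_⟩
    rw [Finset.sup_insert]
    refine max_le ?_ ?_
    · exact sn_mono (le_max_left j k) x
    · exact (hk x).trans (sn_mono (le_max_right j k) x)

/-- the coordinate functionals -/
noncomputable def coord (i : Ix) : lp (fun _ : Ix => ℂ) 1 →L[ℂ] ℂ :=
  LinearMap.mkContinuous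
    { toFun := fun x => x i
      map_add' := fun x y => rfl
      map_smul' := fun c x => rfl } 1 (fun x => by
      rw [one_mul]
      exact lp.norm_apply_le_norm (by norm_num) x i)

lemma coord_apply (i : Ix) (x : lp (fun _ : Ix => ℂ) 1) : coord i x = x i := rfl

/-- a nuclear inclusion forces summability of some power of the inverse weight -/
lemma summable_of_nuclear (h : IsNuclearMap incl) : ∃ k : ℕ, Summable fun i => (w i ^ k)⁻¹ := by
  classical
  obtain ⟨c, f, y, hc, ⟨q, hq, hfq⟩, ⟨M, hM⟩, hsum⟩ := h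
  obtain ⟨s, C, -, hqs⟩ := Seminorm.bound_of_continuous (withSeminorms P isKothe) q hq
  obtain ⟨k, hk⟩ := exists_sn s
  have hfu : ∀ n i, ‖f n (u i)‖ ≤ C * w i ^ k := by
    intro n i
    calc ‖f n (u i)‖ ≤ q (u i) := hfq n _
      _ ≤ (C • s.sup (seminormFamily P isKothe)) (u i) := hqs _
      _ = C * (s.sup (seminormFamily P isKothe)) (u i) := rfl
      _ ≤ C * w i ^ k := by
        gcongr
        rw [← sn_u]
        exact hk _
  have hy : ∀ n (i : Ix), ‖y n i‖ ≤ M := fun n i =>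
    (lp.norm_apply_le_norm (by norm_num) (y n) i).trans (hM n)
  have hM0 : 0 ≤ M := (norm_nonneg _).trans (hM 0)
  have hcy : ∀ i : Ix, Summable fun n => |c n| * ‖y n i‖ := by
    intro i
    refine Summable.of_nonneg_of_le (fun n => by positivity) (fun n => ?_) (hc.mul_right M)
    exact mul_le_mul_of_nonneg_left (hy n i) (abs_nonneg _)
  have key : ∀ i : Ix, (w i ^ k)⁻¹ ≤ C * ∑' n, |c n| * ‖y n i‖ := by
    intro i
    have h1 : HasSum (fun n => ((c n : ℂ) * f n (u i)) * y n i) 1 := by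
      have h2 := (coord i).hasSum (hsum (u i))
      simp only [map_smul, coord_apply, smul_eq_mul, incl_apply, u_val, if_true] at h2
      exact h2
    have h3 : ∀ n, ‖((c n : ℂ) * f n (u i)) * y n i‖ ≤ (C * w i ^ k) * (|c n| * ‖y n i‖) := by
      intro n
      rw [norm_mul, norm_mul, Complex.norm_real, Real.norm_eq_abs]
      calc |c n| * ‖f n (u i)‖ * ‖y n i‖ ≤ |c n| * (C * w i ^ k) * ‖y n i‖ := by
            gcongr
            exact hfu n i
        _ = _ := by ring
    have h4 : (1 : ℝ) ≤ (C * w i ^ k) * ∑' n, |c n| * ‖y n i‖ := by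
      have h5 : ‖(1 : ℂ)‖ ≤ ∑' n, (C * w i ^ k) * (|c n| * ‖y n i‖) := by
        rw [← h1.tsum_eq]
        exact tsum_of_norm_bounded ((hcy i).mul_left (C * w i ^ k)).hasSum h3
      rwa [tsum_mul_left, norm_one] at h5
    have h5 : 0 < w i ^ k := pow_pos (w_pos i) k
    rw [inv_le_iff_one_le_mul₀ h5]
    calc (1 : ℝ) ≤ (C * w i ^ k) * ∑' n, |c n| * ‖y n i‖ := h4
      _ = _ := by ring
  refine ⟨k, summable_of_sum_le (c := C * (M * ∑' n, |c n|))
    (fun i => inv_nonneg.mpr (pow_nonneg (w_pos i).le k)) (fun t => ?_)⟩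
  calc ∑ i ∈ t, (w i ^ k)⁻¹ ≤ ∑ i ∈ t, C * ∑' n, |c n| * ‖y n i‖ :=
        Finset.sum_le_sum fun i _ => key i
    _ = C * ∑' n, ∑ i ∈ t, |c n| * ‖y n i‖ := by
        rw [← Finset.mul_sum, Summable.tsum_finsetSum (fun i _ => hcy i)]
    _ ≤ C * (M * ∑' n, |c n|) := by
        rw [← tsum_mul_left (a := M)]
        refine mul_le_mul_of_nonneg_left ?_ C.2
        refine Summable.tsum_le_tsum (fun n => ?_) (summable_sum fun i _ => hcy i)
          (hc.mul_left M)
        rw [← Finset.mul_sum, mul_comm]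
        refine mul_le_mul_of_nonneg_right ?_ (abs_nonneg _)
        refine le_trans ?_ (hM n)
        have h6 := lp.sum_rpow_le_norm_rpow (p := 1) (by norm_num) (y n) t
        simpa using h6

/-- no power of the inverse weight is summable -/
lemma not_summable (k : ℕ) : ¬ Summable fun i => (w i ^ k)⁻¹ := by
  classical
  intro h
  -- the sums over the blocks tend to zero, but they are at least one
  have h1 : Summable fun l : ℕ => ∑' j : Fin (X l ^ l), (w ⟨l, j⟩ ^ k)⁻¹ := h.sigma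
  have h2 : ∀ l : ℕ, k ≤ l → 1 ≤ ∑' j : Fin (X l ^ l), (w ⟨l, j⟩ ^ k)⁻¹ := by
    intro l hl
    rw [tsum_fintype]
    have h3 : ∀ j : Fin (X l ^ l), (w ⟨l, j⟩ ^ k)⁻¹ = ((X l : ℝ) ^ k)⁻¹ := fun j => rfl
    rw [Finset.sum_congr rfl (fun j _ => h3 j), Finset.sum_const, Finset.card_univ,
      Fintype.card_fin, nsmul_eq_mul]
    have h4 := X_pos l
    have h5 : (1 : ℝ) ≤ X l := by
      have := two_le_X l
      have h : (1 : ℕ) ≤ X l := by omega
      exact_mod_cast h
    push_cast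
    rw [← div_eq_mul_inv, one_le_div (pow_pos h4 k)]
    exact pow_le_pow_right₀ h5 hl
  have h3 := h1.tendsto_atTop_zero
  have h4 : ∀ᶠ l in atTop, ∑' j : Fin (X l ^ l), (w ⟨l, j⟩ ^ k)⁻¹ < 1 :=
    h3.eventually_lt_const one_pos
  obtain ⟨l, hl1, hl2⟩ := (h4.and (eventually_ge_atTop k)).exists
  exact absurd (h2 l hl2) (not_le.mpr hl1)

theorem not_nuclear_A : ¬ IsNuclearSpace A := by
  intro h
  obtain ⟨k, hk⟩ := summable_of_nuclear (h (lp (fun _ : Ix => ℂ) 1) incl)
  exact not_summable k hk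

end Pool.Agent.V11109.Kothe
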